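import Pool.Agent.H95.MW.Itr

/-! # MP_1fe246_co: iterates of a morphism; composition and powers of `Img` -/

set_option autoImplicit false

namespace Pool.Agent.H68.MW

/-- the iterates satisfy the other recursion, too -/
theorem itr_succ' {B : Type} (τ : B → List B) (j : ℕ) (b : B) :
    itr τ (j + 1) b = (τ b).flatMap (itr τ j) := by
  rw [Nat.add_comm, itr_add, itr_one]

theorem length_le_length_flatMap {B A : Type} {θ : B → List A} (h : ∀ b, θ b ≠ []) (w : List B) :
    w.length ≤ (w.flatMap θ).length := by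
  induction w with
  | nil => simp
  | cons a w ih =>
    have h1 : 0 < (θ a).length := List.length_pos_iff.2 (h a)
    simp only [List.flatMap_cons, List.length_append, List.length_cons]
    omega

theorem itr_ne {B : Type} {τ : B → List B} (h : ∀ b, τ b ≠ []) (j : ℕ) (b : B) :
    itr τ j b ≠ [] := by
  induction j with
  | zero => simp
  | succ j ih =>
    have h1 := length_le_length_flatMap h (itr τ j b)
    have h2 : 0 < (itr τ j b).length := List.length_pos_iff.2 ih
    rw [itr_succ, ← List.length_pos_iff]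
    omega

theorem length_itr_mono {B : Type} {τ : B → List B} (h : ∀ b, τ b ≠ []) (b : B) :
    Monotone (fun j => (itr τ j b).length) :=
  monotone_nat_of_le_succ fun j => by
    show (itr τ j b).length ≤ (itr τ (j + 1) b).length
    rw [itr_succ]
    exact length_le_length_flatMap h _

namespace Img

variable {B A D : Type}

/-- the identity -/
theorem refl (v : ℤ → B) : Img (fun b => [b]) v v (fun n => n) where
  ne b := by simp
  step n := by simp
  val n i h := by
    have : i = 0 := by simpa using h
    subst this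
    simp

theorem toNat_image {θ : B → List A} {v : ℤ → B} {U : ℤ → A} {c : ℤ → ℤ} (h : Img θ v U c)
    (x : ℤ) (n : ℕ) : (((win v x n).flatMap θ).length : ℤ) = c (x + n) - c x := by
  have h2 := h.add_le x n
  rw [h.win_image, length_win]
  omega

/-- composition of morphic images -/
theorem comp {θ : B → List A} {ξ : A → List D} {v : ℤ → B} {U : ℤ → A} {W : ℤ → D} {c d : ℤ → ℤ}
    (h : Img θ v U c) (h' : Img ξ U W d) :
    Img (fun b => (θ b).flatMap ξ) v W (fun n => d (c n)) := by
  have key : ∀ n, (θ (v n)).flatMap ξ = win W (d (c n)) (d (c (n + 1)) - d (c n)).toNat := by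
    intro n
    have h1 : θ (v n) = win U (c n) (θ (v n)).length := by
      apply List.ext_getElem
      · simp
      · intro i h1 h2
        rw [getElem_win, h.val n i h1]
    rw [h1, h'.win_image, ← h.step n]
  refine ⟨fun b => ?_, fun n => ?_, fun n i hi => ?_⟩
  · have h1 := length_le_length_flatMap h'.ne (θ b)
    have h2 : 0 < (θ b).length := List.length_pos_iff.2 (h.ne b)
    rw [← List.length_pos_iff]
    omega
  · rw [key n, length_win]
    have h1 := h'.strictMono (h.lt_succ n)
    omega
  · have h1 : ((θ (v n)).flatMap ξ)[i] = (win W (d (c n)) (d (c (n + 1)) - d (c n)).toNat)[i]'(by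
        rw [← key n]; exact hi) := by
      simp only [key n]
    rw [h1, getElem_win]

/-- powers of morphic images -/
theorem power {τ : B → List B} {v : ℤ → B} {c : ℤ → ℤ} (h : Img τ v v c) (j : ℕ) :
    Img (itr τ j) v v (c^[j]) := by
  induction j with
  | zero => exact refl v
  | succ j ih =>
    have h1 := ih.comp h
    rw [Function.iterate_succ']
    exact h1

theorem power_zero_fixed {c : ℤ → ℤ} (h0 : c 0 = 0) (j : ℕ) : (c^[j]) 0 = 0 := by
  induction j with
  | zero => rfl
  | succ j ih => rw [Function.iterate_succ', Function.comp, ih, h0]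

end Img

/-- a letter all of whose iterated images have bounded length -/
def BddLetter {B : Type} (τ : B → List B) (b : B) : Prop := ∃ M, ∀ j, (itr τ j b).length ≤ M

/-- no long window of `v` consists of bounded letters -/
def NonPushy {B : Type} (τ : B → List B) (v : ℤ → B) : Prop :=
  ∃ L : ℕ, ∀ x : ℤ, ∃ i : ℕ, i < L ∧ ¬ BddLetter τ (v (x + i))

/-- **Non-pushy words expand.** -/
theorem nonpushy_expand {B : Type} [Fintype B] {τ : B → List B} {v : ℤ → B}
    (hτ : ∀ b, τ b ≠ []) (hnp : NonPushy τ v) :
    ∃ q : ℕ, 1 ≤ q ∧ ∃ L₀ : ℕ, ∀ cq, Img (itr τ q) v v cq →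
      ∀ (x : ℤ) (n : ℕ), L₀ ≤ n → 2 * (n : ℤ) ≤ cq (x + n) - cq x := by
  classical
  obtain ⟨L, hL⟩ := hnp
  have hLpos : 0 < L := by
    obtain ⟨i, hi, _⟩ := hL 0
    omega
  -- a uniform exponent
  have hex : ∀ b : B, ∃ q : ℕ, ¬ BddLetter τ b → 2 * L ≤ (itr τ q b).length := by
    intro b
    by_cases hb : BddLetter τ b
    · exact ⟨0, fun h => absurd hb h⟩
    · have h2 := hb
      unfold BddLetter at h2
      push Not at h2
      obtain ⟨j, hj⟩ := h2 (2 * L)
      exact ⟨j, fun _ => hj.le⟩
  choose qf hqf using hex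
  refine ⟨∑ b, qf b + 1, by omega, L, fun cq hcq x n hn => ?_⟩
  set q := ∑ b, qf b + 1 with hq
  have hbig : ∀ b : B, ¬ BddLetter τ b → 2 * L ≤ (itr τ q b).length := by
    intro b hb
    refine (hqf b hb).trans (length_itr_mono hτ b ?_)
    have : qf b ≤ ∑ b, qf b := Finset.single_le_sum (f := qf) (fun _ _ => Nat.zero_le _) (Finset.mem_univ b)
    omega
  -- a window of length L grows by at least L
  have hwin : ∀ x : ℤ, (2 * L : ℤ) + (L - 1) ≤ cq (x + L) - cq x := by
    intro x
    obtain ⟨i, hi, hb⟩ := hL x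
    have h1 := hbig _ hb
    have h2 := hcq.step (x + i)
    have h3 := hcq.add_le x i
    have h4 := hcq.add_le (x + i + 1) (L - i - 1)
    have e : x + (i : ℤ) + 1 + ((L - i - 1 : ℕ) : ℤ) = x + L := by omega
    rw [e] at h4
    omega
  have hblocks : ∀ (k : ℕ) (x : ℤ), ((3 * L - 1) * k : ℤ) ≤ cq (x + (k * L : ℕ)) - cq x := by
    intro k
    induction k with
    | zero => intro x; simp
    | succ k ih =>
      intro x
      have h1 := ih x
      have h2 := hwin (x + (k * L : ℕ))
      have e : x + (((k + 1) * L : ℕ) : ℤ) = x + ((k * L : ℕ) : ℤ) + L := by push_cast; ring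
      rw [e]
      have e3 : ((3 * L - 1) * ((k + 1 : ℕ) : ℤ) : ℤ) = (3 * L - 1) * k + (2 * L + (L - 1)) := by
        push_cast; ring
      rw [e3]
      linarith
  have hk1 : 1 ≤ n / L := Nat.div_pos hn hLpos
  have h1 := hblocks (n / L) x
  have h2 := hcq.add_le (x + ((n / L * L : ℕ) : ℤ)) (n % L)
  have hdm : n / L * L + n % L = n := by rw [Nat.mul_comm]; exact Nat.div_add_mod n L
  have hmod : n % L < L := Nat.mod_lt _ hLpos
  have e : x + ((n / L * L : ℕ) : ℤ) + ((n % L : ℕ) : ℤ) = x + n := by
    have : ((n / L * L : ℕ) : ℤ) + ((n % L : ℕ) : ℤ) = n := by exact_mod_cast hdm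
    rw [add_assoc, this]
  rw [e] at h2
  set k := n / L with hk
  set r := n % L with hr
  have hnkr : (n : ℤ) = k * L + r := by exact_mod_cast hdm.symm
  have hkk : (1 : ℤ) ≤ k := by exact_mod_cast hk1
  have hLL : (1 : ℤ) ≤ L := by exact_mod_cast hLpos
  have hrr : (r : ℤ) + 1 ≤ L := by exact_mod_cast hmod
  -- goal : 2 n ≤ (3L-1) k + r
  have h5 : (r : ℤ) ≤ (L - 1) * k := by nlinarith
  nlinarith

end Pool.Agent.H68.MW
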